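import Pool.Agent.R299.Maj.Tensor

open Matrix Finset
open scoped Kronecker ComplexOrder

namespace Pool.Agent.Results.MP_5fe7ea_an.Separable

open Pool.Agent.R299.Maj

/-- The eigenvalue vector of a Hermitian matrix, listed with multiplicity in non-increasing
order (Mathlib's `eigenvalues₀`, which is antitone). -/
noncomputable def lam {ι : Type} [Fintype ι] [DecidableEq ι] {X : Matrix ι ι ℂ}
    (hX : X.IsHermitian) : Fin (Fintype.card ι) → ℝ := hX.eigenvalues₀

/-- The diagonal matrix with the eigenvalues of X on the diagonal in non-increasing order. -/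
noncomputable def down {k : ℕ} {X : Matrix (Fin k) (Fin k) ℂ} (hX : X.IsHermitian) :
    Matrix (Fin k) (Fin k) ℂ :=
  Matrix.diagonal fun j => ((lam hX (Fin.cast (Fintype.card_fin k).symm j) : ℝ) : ℂ)

/-- Majorization of vectors that are listed in non-increasing order: the partial sums of x are
at most those of y and the total sums agree. -/
def Majorized {N : ℕ} (x y : Fin N → ℝ) : Prop :=
  (∀ t : ℕ, (∑ j : Fin N, if (j : ℕ) < t then x j else 0) ≤
    ∑ j : Fin N, if (j : ℕ) < t then y j else 0) ∧ ∑ j, x j = ∑ j, y j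

lemma down_psd {k : ℕ} {X : Matrix (Fin k) (Fin k) ℂ} (hX : X.PosSemidef) :
    (down hX.1).PosSemidef := by
  obtain ⟨U, hU⟩ := exists_dec hX.1 (Fintype.card_fin k)
  unfold down
  rw [Matrix.posSemidef_diagonal_iff]
  intro j
  exact Complex.zero_le_real.2 (hU.nonneg hX j)

theorem result {ι : Type} [Fintype ι] (m n : ℕ) (A : ι → Matrix (Fin m) (Fin m) ℂ)
    (B : ι → Matrix (Fin n) (Fin n) ℂ) (hA : ∀ i, (A i).PosSemidef)
    (hB : ∀ i, (B i).PosSemidef) :
    ∃ (hM : (∑ i, A i ⊗ₖ B i).IsHermitian)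
      (hM' : (∑ i, down (hA i).1 ⊗ₖ down (hB i).1).IsHermitian),
      Antitone (lam hM) ∧ Antitone (lam hM') ∧ Majorized (lam hM) (lam hM') := by
  classical
  have hMp : (∑ i, A i ⊗ₖ B i).PosSemidef :=
    Matrix.posSemidef_sum _ fun i _ => (hA i).kronecker (hB i)
  have hMp' : (∑ i, down (hA i).1 ⊗ₖ down (hB i).1).PosSemidef :=
    Matrix.posSemidef_sum _ fun i _ => (down_psd (hA i)).kronecker (down_psd (hB i))
  refine ⟨hMp.1, hMp'.1, hMp.1.eigenvalues₀_antitone, hMp'.1.eigenvalues₀_antitone, ?_, ?_⟩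
  · intro t
    obtain ⟨W, hW⟩ := exists_dec hMp.1 (rfl : Fintype.card (Fin m × Fin n) = _)
    obtain ⟨W', hW'⟩ := exists_dec hMp'.1 (rfl : Fintype.card (Fin m × Fin n) = _)
    have hW2 : Dec (∑ i, A i ⊗ₖ B i) (lam hMp.1) W := hW
    have hW2' : Dec (∑ i, down (hA i).1 ⊗ₖ down (hB i).1) (lam hMp'.1) W' := hW'
    choose U hU using fun i => exists_dec (hA i).1 (Fintype.card_fin m)
    choose V hV using fun i => exists_dec (hB i).1 (Fintype.card_fin n)
    set P : Matrix (Fin m × Fin n) (Fin m × Fin n) ℂ := Dec.proj W t with hPdef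
    have hP : P.PosSemidef := Dec.proj_psd W t
    have hP1 : (1 - P).PosSemidef := Dec.one_sub_proj hW2.right t
    have hPt : P.trace.re ≤ t := Dec.trace_proj hW2.left t
    have hR : (ptr P).PosSemidef := Matrix.posSemidef_sum _ fun k _ => block_psd hP k
    obtain ⟨Z, hZ⟩ := exists_dec hR.1 (Fintype.card_fin m)
    set r : Fin m → ℝ := fun j => hR.1.eigenvalues₀ (Fin.cast (Fintype.card_fin m).symm j)
      with hr
    -- the sum of the largest eigenvalues is attained on P
    have h1 : (∑ j : Fin (Fintype.card (Fin m × Fin n)), if (j : ℕ) < t then lam hMp.1 j else 0) =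
        (P * ∑ i, A i ⊗ₖ B i).trace.re := by
      rw [hPdef, Dec.trace_proj_mul, hW2.conj_eq]
      simp
    -- bound with the universal weights
    have h2 : (P * ∑ i, A i ⊗ₖ B i).trace.re ≤
        ∑ i, ∑ j, ∑ k, sw r j k * (lam (hA i).1 (Fin.cast (Fintype.card_fin m).symm j) *
          lam (hB i).1 (Fin.cast (Fintype.card_fin n).symm k)) := by
      rw [Matrix.mul_sum, Matrix.trace_sum, Complex.re_sum]
      exact Finset.sum_le_sum fun i _ => trace_kron_le hP hP1 hZ (hA i) (hB i) (hU i) (hV i)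
    -- the weights as a diagonal contraction
    let S : Matrix (Fin m × Fin n) (Fin m × Fin n) ℂ :=
      Matrix.diagonal fun q => ((sw r q.1 q.2 : ℝ) : ℂ)
    have hS : S.PosSemidef := by
      rw [Matrix.posSemidef_diagonal_iff]
      exact fun q => Complex.zero_le_real.2 (sw_nonneg r q.1 q.2)
    have hS1 : (1 - S).PosSemidef := by
      rw [← Matrix.diagonal_one, Matrix.diagonal_sub, Matrix.posSemidef_diagonal_iff]
      intro q
      have h3 : ((1 : ℂ) - ((sw r q.1 q.2 : ℝ) : ℂ)) = ((1 - sw r q.1 q.2 : ℝ) : ℂ) := by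
        push_cast; ring
      rw [h3]
      exact Complex.zero_le_real.2 (by linarith [sw_le_one r q.1 q.2])
    have hSt : S.trace.re ≤ t := by
      have h3 : S.trace.re = ∑ j, ∑ k : Fin n, sw r j k := by
        simp only [Matrix.trace, Matrix.diag, S, Matrix.diagonal_apply_eq, Complex.re_sum,
          Complex.ofReal_re, Fintype.sum_prod_type]
      have h4 : ∀ j, ∑ k : Fin n, sw r j k ≤ r j := by
        intro j
        have h5 := sum_sw (n := n) r j (hZ.nonneg hR j) n le_rfl
        simp only [Fin.is_lt, if_true] at h5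
        rw [h5]
        exact min_le_left _ _
      rw [h3]
      refine (Finset.sum_le_sum fun j _ => h4 j).trans ?_
      have h6 : ((ptr P).trace).re = ∑ j, r j := by
        rw [hZ.trace_eq]
        simp [hr]
      rw [← h6, ptr_trace]
      exact hPt
    have h7 : (S * ∑ i, down (hA i).1 ⊗ₖ down (hB i).1).trace.re =
        ∑ i, ∑ j, ∑ k, sw r j k * (lam (hA i).1 (Fin.cast (Fintype.card_fin m).symm j) *
          lam (hB i).1 (Fin.cast (Fintype.card_fin n).symm k)) := by
      rw [Matrix.mul_sum, Matrix.trace_sum, Complex.re_sum]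
      refine Finset.sum_congr rfl fun i _ => ?_
      simp only [down, Matrix.diagonal_kronecker_diagonal, S, Matrix.diagonal_mul_diagonal,
        Matrix.trace, Matrix.diag, Matrix.diagonal_apply_eq, Complex.re_sum,
        Fintype.sum_prod_type]
      refine Finset.sum_congr rfl fun j _ => Finset.sum_congr rfl fun k _ => ?_
      rw [← Complex.ofReal_mul, ← Complex.ofReal_mul, Complex.ofReal_re]
    rw [h1]
    refine h2.trans ?_
    rw [← h7]
    exact hW2'.kyFan hMp' hS hS1 t hSt
  · obtain ⟨W, hW⟩ := exists_dec hMp.1 (rfl : Fintype.card (Fin m × Fin n) = _)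
    obtain ⟨W', hW'⟩ := exists_dec hMp'.1 (rfl : Fintype.card (Fin m × Fin n) = _)
    have h1 : (∑ i, A i ⊗ₖ B i).trace = ((∑ j, lam hMp.1 j : ℝ) : ℂ) := by
      rw [hW.trace_eq]
      push_cast
      rfl
    have h2 : (∑ i, down (hA i).1 ⊗ₖ down (hB i).1).trace = ((∑ j, lam hMp'.1 j : ℝ) : ℂ) := by
      rw [hW'.trace_eq]
      push_cast
      rfl
    have h3 : ∀ {k : ℕ} {X : Matrix (Fin k) (Fin k) ℂ} (hX : X.IsHermitian),
        (down hX).trace = X.trace := by
      intro k X hX
      obtain ⟨U, hU⟩ := exists_dec hX (Fintype.card_fin k)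
      rw [hU.trace_eq, down, Matrix.trace_diagonal]
      rfl
    have h4 : (∑ i, A i ⊗ₖ B i).trace = (∑ i, down (hA i).1 ⊗ₖ down (hB i).1).trace := by
      rw [Matrix.trace_sum, Matrix.trace_sum]
      refine Finset.sum_congr rfl fun i _ => ?_
      rw [Matrix.trace_kronecker, Matrix.trace_kronecker, h3, h3]
    rw [h1, h2] at h4
    exact_mod_cast h4

end Pool.Agent.Results.MP_5fe7ea_an.Separable
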